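import Mathlib
import Pool.Agent.Helper66.EbbaDefs
import Pool.Agent.Helper66.EbbaFinal

namespace Pool.Agent.Results.MP_ebba11_co.NonUnimodal

open Pool.Agent.Helper66.Ebba

/-- The `h`-polynomials of tangent cones of type A Schubert varieties are not always unimodal:
in `S_10`, for `w = 6 7 8 9 10 1 2 3 4 5` and `v = 1 4 3 2 5 6 10 9 8 7` the first coefficients of
`H_{v,w}` are `1, 4, 6, 4, 5`. -/
theorem result :
    (¬ ∀ (n : ℕ) (v w : Equiv.Perm (Fin n)), BruhatLE v w → Unimodal (hCoeff v w)) ∧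
    ∃ v w : Equiv.Perm (Fin 10),
      (∀ i, v i = (![0, 3, 2, 1, 4, 5, 9, 8, 7, 6] : Fin 10 → Fin 10) i) ∧
      (∀ i, w i = (![5, 6, 7, 8, 9, 0, 1, 2, 3, 4] : Fin 10 → Fin 10) i) ∧
      BruhatLE v w ∧ hCoeff v w 0 = 1 ∧ hCoeff v w 1 = 4 ∧ hCoeff v w 2 = 6 ∧
      hCoeff v w 3 = 4 ∧ hCoeff v w 4 = 5 :=
  ⟨fun h => not_unimodal (h 10 v10 w10 bruhat_v10_w10),
    v10, w10, fun _ => rfl, fun _ => rfl, bruhat_v10_w10, hC0, hC1, hC2, hC3, hC4⟩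

end Pool.Agent.Results.MP_ebba11_co.NonUnimodal
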